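import Pool.Agent.R244.CP.P_PSET

/-!
# Exact polygons (MP_df9226_an)

Upgrade of project CP (helper244 and co-workers): compact planar sets are contracted onto exact
polygons.
-/

set_option autoImplicit false

namespace Pool.Agent.R952.ExactPolygon

open MeasureTheory Set Metric Filter Topology
open Pool.Agent.R244.CP
open Pool.Agent.R244.CP.PSET
open scoped NNReal ENNReal

/-- The polyhedral collapse map, with the description of its fibres. -/
def S_POLY2 : Prop := ∀ (J : Finset (E2 × ℝ)) (L : ℝ), J.Nonempty → 0 ≤ L →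
  (∀ j ∈ J, ‖j.1‖ ≤ L) →
  ∃ (b : E2 × ℝ → ℝ) (F : E2 → E2) (Z : Set E2), Collapse (pl J) L F Z ∧
    (∀ p : E2, ∀ j ∈ J, (∀ i ∈ J, inner ℝ i.1 p - b i ≤ inner ℝ j.1 p - b j) →
      F (p + j.1) = p) ∧
    (∀ x : E2, (∃ j ∈ J, x = F x + j.1 ∧
        ∀ i ∈ J, inner ℝ i.1 (F x) - b i ≤ inner ℝ j.1 (F x) - b j) ∨
      ∃ i ∈ J, ∃ j ∈ J, i.1 ≠ j.1 ∧ inner ℝ i.1 (F x) - b i = inner ℝ j.1 (F x) - b j) ∧
    (∀ p : E2, ∀ j ∈ J, (∀ i ∈ J, inner ℝ i.1 p - b i ≤ inner ℝ j.1 p - b j) →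
      Contact (pl J) (p + j.1))

theorem t_POLY2 (hP : S_PROX) (hL : S_PL) : S_POLY2 := by
  intro J L hJ hL0 hJL
  obtain ⟨hconv, hlip⟩ := hL J L hJ hJL
  obtain ⟨k, F, Z, hk, hF, hcol⟩ := hP (pl J) L hL0 hconv hlip
  have hk1 : ∀ p : E2, ∀ j ∈ J, (∀ i ∈ J, inner ℝ i.1 p - (i.2 - ‖i.1‖ ^ 2 / 2) ≤
      inner ℝ j.1 p - (j.2 - ‖j.1‖ ^ 2 / 2)) → k p ≤ inner ℝ j.1 p - (j.2 - ‖j.1‖ ^ 2 / 2) := by
    intro p j hj hmax
    refine (hk p).2 ?_
    rintro _ ⟨y, rfl⟩
    obtain ⟨i, hi, hpl⟩ := exists_pl hJ (p + y)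
    have h2 := hmax i hi
    simp only at h2 ⊢
    have h3 : 0 ≤ ‖i.1 - y‖ ^ 2 := sq_nonneg _
    rw [norm_sub_sq_real] at h3
    rw [hpl, inner_add_right]
    linarith
  have hk2 : ∀ p' : E2, ∀ j ∈ J, inner ℝ j.1 p' - (j.2 - ‖j.1‖ ^ 2 / 2) ≤ k p' := by
    intro p' j hj
    refine le_trans ?_ ((hk p').1 ⟨j.1, rfl⟩)
    have h3 := le_pl hj (p' + j.1)
    rw [inner_add_right, real_inner_self_eq_norm_sq] at h3
    simp only
    linarith
  refine ⟨fun j => j.2 - ‖j.1‖ ^ 2 / 2, F, Z, hcol, ?_, ?_, ?_⟩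
  · intro p j hj hmax
    rw [hF]
    intro p'
    have e1 : p + j.1 - p = j.1 := by abel
    rw [e1]
    have h1 := hk1 p j hj hmax
    have h2 := hk2 p' j hj
    rw [inner_sub_right]
    linarith
  · intro x
    set p : E2 := F x with hp
    obtain ⟨j, hj, hmax⟩ := Finset.exists_max_image J
      (fun j => inner ℝ j.1 p - (j.2 - ‖j.1‖ ^ 2 / 2)) hJ
    by_cases hex : ∃ i ∈ J, i.1 ≠ j.1 ∧ inner ℝ i.1 p - (i.2 - ‖i.1‖ ^ 2 / 2) =
        inner ℝ j.1 p - (j.2 - ‖j.1‖ ^ 2 / 2)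
    · obtain ⟨i, hi, hne, he⟩ := hex
      exact Or.inr ⟨i, hi, j, hj, hne, he⟩
    · left
      push Not at hex
      refine ⟨j, hj, ?_, hmax⟩
      have hFx := (hF x p).1 hp.symm
      by_contra hne
      set s : E2 := x - p with hs
      have hsj : s - j.1 ≠ 0 := by
        intro h0
        apply hne
        have : x = p + s := by rw [hs]; abel
        rw [this, sub_eq_zero.1 h0]
      -- near p, j is maximal
      have hev : ∀ᶠ p' in 𝓝 p, ∀ i ∈ J, inner ℝ i.1 p' - (i.2 - ‖i.1‖ ^ 2 / 2) ≤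
          inner ℝ j.1 p' - (j.2 - ‖j.1‖ ^ 2 / 2) := by
        rw [Filter.eventually_all_finset]
        intro i hi
        rcases lt_or_eq_of_le (hmax i hi) with hlt | heq
        · have hc1 : Continuous fun p' : E2 => inner ℝ i.1 p' - (i.2 - ‖i.1‖ ^ 2 / 2) :=
            (continuous_const.inner continuous_id).sub continuous_const
          have hc2 : Continuous fun p' : E2 => inner ℝ j.1 p' - (j.2 - ‖j.1‖ ^ 2 / 2) :=
            (continuous_const.inner continuous_id).sub continuous_const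
          filter_upwards [(hc1.tendsto p).eventually_lt (hc2.tendsto p) hlt] with p' hp'
          exact hp'.le
        · by_cases hij : i.1 = j.1
          · refine Filter.Eventually.of_forall fun p' => ?_
            rw [hij] at heq ⊢
            linarith
          · exact absurd heq (hex i hi hij)
      have htend : Tendsto (fun t : ℝ => p + t • (s - j.1)) (𝓝[>] 0) (𝓝 p) := by
        have hc : Continuous fun t : ℝ => p + t • (s - j.1) := by fun_prop
        have := hc.tendsto 0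
        simp only [zero_smul, add_zero] at this
        exact this.mono_left nhdsWithin_le_nhds
      obtain ⟨t, ht, ht0⟩ := ((htend.eventually hev).and self_mem_nhdsWithin).exists
      have ht0' : 0 < t := ht0
      have h1 := hk1 _ j hj ht
      have h2 := hFx (p + t • (s - j.1))
      have h3 := hk2 p j hj
      have e1 : p + t • (s - j.1) - p = t • (s - j.1) := by abel
      rw [e1, inner_smul_right] at h2
      rw [inner_add_right, inner_smul_right] at h1
      have h4 : t * inner ℝ (s - j.1) (s - j.1) ≤ 0 := by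
        rw [inner_sub_left]
        nlinarith
      have h5 : 0 < inner ℝ (s - j.1) (s - j.1) := by
        rw [real_inner_self_eq_norm_sq]
        have := norm_pos_iff.2 hsj
        positivity
      have h6 : 0 < t * inner ℝ (s - j.1) (s - j.1) := mul_pos ht0' h5
      linarith
  · intro p j hj hmax
    refine ⟨j.1, fun z => ?_⟩
    have h1 := hk1 p j hj hmax
    have h2 := (hk p).1 ⟨z - p, rfl⟩
    simp only at h2
    have e1 : p + (z - p) = z := by abel
    rw [e1] at h2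
    have h3 := le_pl hj (p + j.1)
    rw [inner_add_right, real_inner_self_eq_norm_sq] at h3
    have e2 : z - p = (z - (p + j.1)) + j.1 := by abel
    have h4 : ‖z - p‖ ^ 2 = ‖z - (p + j.1)‖ ^ 2 + 2 * inner ℝ (z - (p + j.1)) j.1 + ‖j.1‖ ^ 2 := by
      rw [e2, norm_add_sq_real]
    rw [real_inner_comm] at h4
    linarith

/-- The closure of a set covered by finitely many segments is covered. -/
theorem Cov.closure {A : Set E2} (h : Cov A) : Cov (closure A) := by
  obtain ⟨S, hS⟩ := h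
  refine ⟨S, closure_minimal hS ?_⟩
  refine S.finite_toSet.isClosed_biUnion fun s _ => ?_
  have h1 : IsCompact (segment ℝ s.1 s.2) := by
    rw [segment_eq_image]
    refine isCompact_Icc.image ?_
    fun_prop
  exact h1.isClosed

theorem Cov.exists_finset {ι : Type*} (K : Finset ι) (f : ι → Set E2)
    (h : ∀ i ∈ K, Cov (f i)) : Cov {p : E2 | ∃ i ∈ K, p ∈ f i} := by
  classical
  induction K using Finset.induction_on with
  | empty => simpa using Cov.empty
  | insert i K hi ih =>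
    have h1 : {p : E2 | ∃ j ∈ insert i K, p ∈ f j} = f i ∪ {p : E2 | ∃ j ∈ K, p ∈ f j} := by
      ext p
      simp
    rw [h1]
    exact Cov.union (h i (Finset.mem_insert_self i K))
      (ih fun j hj => h j (Finset.mem_insert_of_mem hj))

/-- The bounded part of the singular set is covered by finitely many segments. -/
theorem cov_sing (J : Finset (E2 × ℝ)) (b : E2 × ℝ → ℝ) (R : ℝ) :
    Cov {p : E2 | ‖p‖ ≤ R ∧ ∃ i ∈ J, ∃ j ∈ J, i.1 ≠ j.1 ∧
      inner ℝ i.1 p - b i = inner ℝ j.1 p - b j} := by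
  have h : Cov {p : E2 | ∃ i ∈ J, p ∈ {p : E2 | ∃ j ∈ J, p ∈ {p : E2 | ‖p‖ ≤ R ∧ i.1 ≠ j.1 ∧
      inner ℝ i.1 p - b i = inner ℝ j.1 p - b j}}} := by
    refine Cov.exists_finset J _ fun i hi => Cov.exists_finset J _ fun j hj => ?_
    by_cases hne : i.1 = j.1
    · refine Cov.empty.mono ?_
      rintro p ⟨-, h2, -⟩
      exact absurd hne h2
    · refine (cov_line (sub_ne_zero.2 hne) (b i - b j) R).mono ?_
      rintro p ⟨h1, -, h3⟩
      refine ⟨h1, ?_⟩
      rw [inner_sub_left]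
      linarith
  refine h.mono ?_
  rintro p ⟨h1, i, hi, j, hj, h2, h3⟩
  exact ⟨i, hi, j, hj, h1, h2, h3⟩

/-- Second step: a compact set with null boundary is contracted onto a polygon. -/
theorem exact_step (hKEYB : S_KEYB) (hPOLY : S_POLY2) (hPSET : S_PSET) (hJ : S_JORDAN)
    (hE : S_ERODE) (K : Set E2) (hKc : IsCompact K) (hKf : volume (frontier K) = 0)
    (δ : ℝ) (hδ : 0 < δ) :
    ∃ Ψ : E2 → E2, LipschitzWith 1 Ψ ∧ (∀ x, ‖Ψ x - x‖ ≤ δ) ∧ IsPolygon (Ψ '' K) ∧
      volume K ≤ volume (Ψ '' K) + ENNReal.ofReal δ := by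
  obtain ⟨L1, hL1, hL1'⟩ := hE K hKc hKf δ hδ
  set ε2 : ℝ := min L1 δ / 2 with hε2
  have hmin : 0 < min L1 δ := lt_min hL1 hδ
  have hε2pos : 0 < ε2 := by positivity
  have hε2L : 2 * ε2 ≤ L1 := by rw [hε2]; linarith [min_le_left L1 δ]
  have hε2δ : 2 * ε2 ≤ δ := by rw [hε2]; linarith [min_le_right L1 δ]
  obtain ⟨V, W1, hVc, hW1o, hVW, hW1, hPol⟩ := hJ K hKc hKf (ε2 ^ 2 / 16) (by positivity)
  have hW1top : volume W1 < ⊤ := lt_of_le_of_lt hW1 ENNReal.ofReal_lt_top
  have hW116 : 16 * (volume W1).toReal ≤ ε2 ^ 2 := by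
    have h1 : (volume W1).toReal ≤ ε2 ^ 2 / 16 := by
      have := ENNReal.toReal_mono ENNReal.ofReal_ne_top hW1
      rwa [ENNReal.toReal_ofReal (by positivity)] at this
    linarith
  obtain ⟨J, hJne, hJb, hJnc⟩ := hKEYB V W1 hVc hW1o hVW hW1top ε2 hε2pos hW116
  obtain ⟨b, Ψ, Z', hCol', hmax, hfib, hcon⟩ := hPOLY J (2 * ε2) hJne (by positivity) hJb
  obtain ⟨hP1, hPd, hPs, hZ', hPi, hPc⟩ := hCol'
  set P : Set E2 := {p : E2 | ∃ j ∈ J, p + j.1 ∈ K \ V ∧
      ∀ i ∈ J, inner ℝ i.1 p - b i ≤ inner ℝ j.1 p - b j} with hP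
  have hPpoly : IsPolygon P := hPSET (K \ V) (hKc.isBounded.subset sdiff_subset) hPol J b
  have hAc : IsCompact (Ψ '' K) := hKc.image hP1.continuous
  obtain ⟨R, hR⟩ := hAc.isBounded.subset_closedBall (0 : E2)
  set B : Set E2 := {p : E2 | p ∈ Ψ '' K ∧ ∃ i ∈ J, ∃ j ∈ J, i.1 ≠ j.1 ∧
      inner ℝ i.1 p - b i = inner ℝ j.1 p - b j} with hB
  have hBcov : Cov B := by
    refine (cov_sing J b R).mono ?_
    rintro p ⟨hp1, hp2⟩
    refine ⟨by simpa using hR hp1, hp2⟩
  have hAeq : Ψ '' K = P ∪ B := by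
    apply Subset.antisymm
    · rintro _ ⟨x, hx, rfl⟩
      rcases hfib x with ⟨j, hj, hxj, hjm⟩ | hs
      · left
        refine ⟨j, hj, ?_, hjm⟩
        rw [← hxj]
        refine ⟨hx, fun hxV => hJnc x hxV ?_⟩
        rw [hxj]
        exact hcon _ j hj hjm
      · exact Or.inr ⟨⟨x, hx, rfl⟩, hs⟩
    · rintro p (⟨j, hj, hjK, hjm⟩ | hpB)
      · exact ⟨p + j.1, hjK.1, hmax p j hj hjm⟩
      · exact hpB.1
  refine ⟨Ψ, hP1, fun x => (hPd x).trans hε2δ, ?_, hL1' Ψ hPs fun x => (hPd x).trans hε2L⟩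
  rw [hAeq]
  have hPc' : Cov (frontier P) := hPpoly
  refine (Cov.union hPc' (Cov.closure hBcov)).mono ((frontier_union_subset P B).trans ?_)
  rintro x (⟨hx, -⟩ | ⟨-, hx⟩)
  · exact Or.inl hx
  · exact Or.inr (frontier_subset_closure hx)

/-- Main theorem: every compact planar set is contracted onto an exact polygon, with arbitrarily
small displacement and arbitrarily small loss of measure. -/
theorem main (hLIM : S_LIM) (hKEYB : S_KEYB) (hPROX : S_PROX) (hPOLY : S_POLY2)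
    (hPSET : S_PSET) (hJ : S_JORDAN) (hA : S_APPROX) (hM : S_MEAS) (hE : S_ERODE)
    (hF : S_FRONT) : ∀ K : Set E2, IsCompact K → ∀ ε : ℝ, 0 < ε →
    ∃ f : E2 → E2, LipschitzWith 1 f ∧ (∀ x, ‖f x - x‖ ≤ ε) ∧ IsPolygon (f '' K) ∧
      volume K ≤ volume (f '' K) + ENNReal.ofReal ε := by
  intro E hEcomp ε hε
  have hEm : NullMeasurableSet E volume := hEcomp.measurableSet.nullMeasurableSet
  have hEf : volume E < ⊤ := hEcomp.measure_lt_top
  obtain ⟨G0, hG0c, hG0f, hG0⟩ := hA E hEm hEf (ε / 4) (by positivity)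
  obtain ⟨L0, hL0, hL0'⟩ := hE G0 hG0c hG0f (ε / 4) (by positivity)
  set ε1 : ℝ := min L0 (ε / 2) / 2 with hε1
  have hmin : 0 < min L0 (ε / 2) := lt_min hL0 (by positivity)
  have hε1pos : 0 < ε1 := by positivity
  have hε1L : 2 * ε1 ≤ L0 := by rw [hε1]; linarith [min_le_left L0 (ε / 2)]
  have hε1ε : 2 * ε1 ≤ ε / 2 := by rw [hε1]; linarith [min_le_right L0 (ε / 2)]
  set κ : ℝ := ε1 ^ 2 / 32 with hκ
  have hκpos : 0 < κ := by positivity
  obtain ⟨G, hGc, hGf, hG⟩ := hA E hEm hEf κ hκpos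
  have hlt : volume (symmDiff E G) < ENNReal.ofReal (2 * κ) :=
    lt_of_le_of_lt hG ((ENNReal.ofReal_lt_ofReal_iff (by positivity)).2 (by linarith))
  obtain ⟨W, hWsub, hWo, hWv⟩ := Set.exists_isOpen_lt_of_lt (symmDiff E G) _ hlt
  have hWtop : volume W < ⊤ := lt_trans hWv ENNReal.ofReal_lt_top
  have hW16 : 16 * (volume W).toReal ≤ ε1 ^ 2 := by
    have h1 : (volume W).toReal ≤ 2 * κ := by
      have := ENNReal.toReal_mono ENNReal.ofReal_ne_top hWv.le
      rwa [ENNReal.toReal_ofReal (by positivity)] at this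
    have h2 : 2 * κ = ε1 ^ 2 / 16 := by rw [hκ]; ring
    linarith
  obtain ⟨h, hconv, hLip, hnc⟩ := hLIM W hWo hWtop ε1 hε1pos hW16
  obtain ⟨k, F, Z, -, -, hCol⟩ := hPROX h (2 * ε1) (by positivity) hconv hLip
  obtain ⟨hF1, hFd, hFs, hZ, hFi, hFc⟩ := id hCol
  have hFW : volume (F '' W) = 0 := by
    refine measure_mono_null ?_ hZ
    rintro _ ⟨x, hx, rfl⟩
    by_contra hxZ
    exact hnc x hx (hFc x hxZ)
  have himgsd : symmDiff (F '' E) (F '' G) ⊆ F '' (symmDiff E G) := by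
    rintro y (⟨⟨x, hx, rfl⟩, hy⟩ | ⟨⟨x, hx, rfl⟩, hy⟩)
    · exact ⟨x, Or.inl ⟨hx, fun hb => hy ⟨x, hb, rfl⟩⟩, rfl⟩
    · exact ⟨x, Or.inr ⟨hx, fun hb => hy ⟨x, hb, rfl⟩⟩, rfl⟩
  have hsub_un : ∀ A B : Set E2, A ⊆ B ∪ symmDiff A B := by
    intro A B x hx
    by_cases hb : x ∈ B
    · exact Or.inl hb
    · exact Or.inr (Or.inl ⟨hx, hb⟩)
  have hd1 : volume (symmDiff (F '' E) (F '' G)) = 0 :=
    measure_mono_null (himgsd.trans (image_mono hWsub)) hFW
  have hK1c : IsCompact (F '' E) := hEcomp.image hF1.continuous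
  have hG1f : volume (frontier (F '' G)) = 0 := hF h _ F Z hCol G hGc hGf
  have hint : interior (F '' G) ⊆ F '' E := by
    have hop : IsOpen (interior (F '' G) \ (F '' E)) :=
      isOpen_interior.sdiff hK1c.isClosed
    have hnull : volume (interior (F '' G) \ (F '' E)) = 0 := by
      refine measure_mono_null ?_ hd1
      rintro x ⟨hx1, hx2⟩
      exact Or.inr ⟨interior_subset hx1, hx2⟩
    have hemp := (hop.measure_eq_zero_iff volume).1 hnull
    intro x hx
    by_contra hxE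
    have : x ∈ interior (F '' G) \ (F '' E) := ⟨hx, hxE⟩
    rw [hemp] at this
    exact this
  have hint2 : interior (F '' G) ⊆ interior (F '' E) :=
    interior_maximal hint isOpen_interior
  have hK1f : volume (frontier (F '' E)) = 0 := by
    refine measure_mono_null ?_ (measure_union_null hd1 hG1f)
    intro x hx
    have hxE : x ∈ F '' E := hK1c.isClosed.frontier_subset hx
    have hxi : x ∉ interior (F '' E) := hx.2
    by_cases hxG : x ∈ F '' G
    · right
      exact ⟨subset_closure hxG, fun hxI => hxi (hint2 hxI)⟩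
    · exact Or.inl (Or.inl ⟨hxE, hxG⟩)
  have hb1 : volume E ≤ volume G0 + ENNReal.ofReal (ε / 4) :=
    (measure_mono (hsub_un E G0)).trans
      ((measure_union_le _ _).trans (by gcongr))
  have hb2 : volume G0 ≤ volume (F '' G0) + ENNReal.ofReal (ε / 4) :=
    hL0' F hFs (fun x => (hFd x).trans hε1L)
  have hb3 : volume (F '' G0) ≤ volume (F '' E) + ENNReal.ofReal (ε / 4) := by
    have hsub : F '' G0 ⊆ F '' E ∪ F '' (symmDiff E G0) := by
      rw [← image_union]
      apply image_mono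
      have := hsub_un G0 E
      rwa [symmDiff_comm] at this
    exact (measure_mono hsub).trans ((measure_union_le _ _).trans
      (by gcongr; exact (hM F hF1 _).trans hG0))
  obtain ⟨Ψ, hΨ1, hΨd, hΨp, hΨv⟩ := exact_step hKEYB hPOLY hPSET hJ hE (F '' E) hK1c hK1f
    (ε / 4) (by positivity)
  refine ⟨Ψ ∘ F, ?_, ?_, ?_, ?_⟩
  · have := hΨ1.comp hF1
    rwa [mul_one] at this
  · intro x
    have h1 := hΨd (F x)
    have h2 := hFd x
    calc ‖(Ψ ∘ F) x - x‖ = ‖(Ψ (F x) - F x) + (F x - x)‖ := by simp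
      _ ≤ ‖Ψ (F x) - F x‖ + ‖F x - x‖ := norm_add_le _ _
      _ ≤ ε := by linarith
  · rw [image_comp]; exact hΨp
  · have hsum : ENNReal.ofReal ε = ENNReal.ofReal (ε / 4) + ENNReal.ofReal (ε / 4) +
        ENNReal.ofReal (ε / 4) + ENNReal.ofReal (ε / 4) := by
      rw [← ENNReal.ofReal_add (by positivity) (by positivity),
        ← ENNReal.ofReal_add (by positivity) (by positivity),
        ← ENNReal.ofReal_add (by positivity) (by positivity)]
      congr 1; ring
    rw [image_comp]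
    calc volume E ≤ volume G0 + ENNReal.ofReal (ε / 4) := hb1
      _ ≤ (volume (F '' G0) + ENNReal.ofReal (ε / 4)) + ENNReal.ofReal (ε / 4) := by gcongr
      _ ≤ ((volume (F '' E) + ENNReal.ofReal (ε / 4)) + ENNReal.ofReal (ε / 4)) +
            ENNReal.ofReal (ε / 4) := by gcongr
      _ ≤ (((volume (Ψ '' (F '' E)) + ENNReal.ofReal (ε / 4)) + ENNReal.ofReal (ε / 4)) +
            ENNReal.ofReal (ε / 4)) + ENNReal.ofReal (ε / 4) := by gcongr
      _ = volume (Ψ '' (F '' E)) + ENNReal.ofReal ε := by rw [hsum]; ring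

end Pool.Agent.R952.ExactPolygon
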