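import Mathlib

/-!
# Interference queueing networks on `ℤ^d`: definitions
-/

set_option autoImplicit false

open MeasureTheory Filter Topology

namespace Pool.Agent.R952.IQ

/-- The sites of the lattice `ℤ^d`. -/
abbrev Site (d : ℕ) := Fin d → ℤ

/-- The queue lengths at all sites. -/
abbrev Conf (d : ℕ) := Site d → ℕ

variable {d : ℕ}

/-- An interference sequence: nonnegative, `a 0 = 1`, symmetric, finitely supported, irreducible. -/
structure Interference (a : Site d → ℝ) : Prop where
  nonneg : ∀ i, 0 ≤ a i
  one : a 0 = 1
  symm : ∀ i, a (-i) = a i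
  finite : (Function.support a).Finite
  irreducible : ∀ z : Site d, ∃ l : List (Site d), l ≠ [] ∧ (∀ i ∈ l, 0 < a i) ∧ l.sum = z

/-- The instantaneous departure rate `x_i / ∑_j a_j x_{i-j}` of queue `i` (it is `0` if `x_i = 0`). -/
noncomputable def rate (a : Site d → ℝ) (x : Conf d) (i : Site d) : ℝ :=
  (x i : ℝ) / ∑ᶠ j, a j * (x (i - j) : ℝ)

/-- One customer arrives at site `i`. -/
def arrive (x : Conf d) (i : Site d) : Conf d := Function.update x i (x i + 1)

/-- One customer leaves site `i`. -/
def depart (x : Conf d) (i : Site d) : Conf d := Function.update x i (x i - 1)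

/-- The generator of the network: customers arrive at every site at rate `lam`, and leave site `i`
at rate `rate a x i`. -/
noncomputable def gen (a : Site d → ℝ) (lam : ℝ) (f : Conf d → ℝ) (x : Conf d) : ℝ :=
  ∑ᶠ i, (lam * (f (arrive x i) - f x) + rate a x i * (f (depart x i) - f x))

/-- `f` depends on the queues in the finite set `A` only. -/
def DependsOnly (A : Finset (Site d)) (f : Conf d → ℝ) : Prop :=
  ∀ x y : Conf d, (∀ i ∈ A, x i = y i) → f x = f y

/-- `f` is bounded and depends on finitely many queues. -/
def IsLocal (f : Conf d → ℝ) : Prop :=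
  (∃ A : Finset (Site d), DependsOnly A f) ∧ ∃ B : ℝ, ∀ x, |f x| ≤ B

/-- `μ t` (`t ≥ 0`) is the law at time `t` of the interference queueing network started with all
queues empty: the Markov process on `ℕ^(ℤ^d)` with the above generator.  That is, the probability
measures `μ t` start at the empty configuration and solve the Kolmogorov forward equation
`d/dt ∫ f dμ_t = ∫ (gen f) dμ_t` for all bounded functions `f` of finitely many queues. -/
structure NetworkLaw (a : Site d → ℝ) (lam : ℝ) (μ : ℝ → Measure (Conf d)) : Prop where
  prob : ∀ t, 0 ≤ t → IsProbabilityMeasure (μ t)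
  init : μ 0 = Measure.dirac 0
  forward : ∀ f : Conf d → ℝ, IsLocal f → ∀ t, 0 ≤ t →
    HasDerivWithinAt (fun s => ∫ x, f x ∂(μ s)) (∫ x, gen a lam f x ∂(μ t)) (Set.Ici 0) t

/-- The queue length at site `i` converges in distribution, as `t → ∞`, to an almost surely finite
random variable: a random variable which is equal to `k` with probability `q k`, where
`∑ q k = 1`. -/
def StableAt (μ : ℝ → Measure (Conf d)) (i : Site d) : Prop :=
  ∃ q : ℕ → ℝ, HasSum q 1 ∧ ∀ k : ℕ, Tendsto (fun t => (μ t).real {x | x i = k}) atTop (𝓝 (q k))

end Pool.Agent.R952.IQ
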