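import Pool.Agent.R952.IQUniq

/-!
# Interference queueing networks: instability at and above the critical rate
-/

set_option autoImplicit false

open MeasureTheory Filter Topology

namespace Pool.Agent.R952.IQ

variable {d : ℕ} {a : Site d → ℝ} {lam : ℝ}

/-! ### Translation invariance -/

/-- the translation of a configuration -/
def shift (v : Site d) (x : Conf d) : Conf d := fun i => x (i + v)

theorem measurable_shift (v : Site d) : Measurable (shift v) :=
  measurable_pi_lambda _ (fun _ => measurable_pi_apply _)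

theorem shift_arrive (v : Site d) (x : Conf d) (i : Site d) :
    shift v (arrive x (i + v)) = arrive (shift v x) i := by
  funext j
  by_cases h : j = i
  · subst h; simp [shift, arrive]
  · have h' : j + v ≠ i + v := fun e => h (add_right_cancel e)
    simp [shift, arrive, Function.update_of_ne h, Function.update_of_ne h']

theorem shift_depart (v : Site d) (x : Conf d) (i : Site d) :
    shift v (depart x (i + v)) = depart (shift v x) i := by
  funext j
  by_cases h : j = i
  · subst h; simp [shift, depart]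
  · have h' : j + v ≠ i + v := fun e => h (add_right_cancel e)
    simp [shift, depart, Function.update_of_ne h, Function.update_of_ne h']

theorem rate_shift (v : Site d) (x : Conf d) (i : Site d) :
    rate a (shift v x) i = rate a x (i + v) := by
  have e : ∀ j : Site d, i + v - j = i - j + v := fun j => by abel
  simp only [rate, shift, e]

theorem gen_shift (v : Site d) (f : Conf d → ℝ) (x : Conf d) :
    gen a lam (fun y => f (shift v y)) x = gen a lam f (shift v x) := by
  rw [gen, gen]
  rw [← finsum_comp_equiv (Equiv.addRight v)]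
  apply finsum_congr
  intro i
  simp only [Equiv.coe_addRight]
  rw [shift_arrive, shift_depart, rate_shift]

theorem IsLocal.shift {f : Conf d → ℝ} (hf : IsLocal f) (v : Site d) :
    IsLocal (fun x => f (shift v x)) := by
  obtain ⟨⟨A, hA⟩, B, hB⟩ := hf
  refine ⟨⟨A.image (fun i => i + v), fun x y h => hA _ _ (fun i hi => h _ (Finset.mem_image_of_mem _ hi))⟩,
    B, fun x => hB _⟩

theorem measurable_genAt (ha : Interference a) {A : Finset (Site d)} {f : Conf d → ℝ}
    (hA : DependsOnly A f) (i : Site d) : Measurable (genAt a lam f i) :=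
  measurable_of_dep (genAt_dep ha hA i)

theorem measurable_gen (ha : Interference a) {A : Finset (Site d)} {f : Conf d → ℝ}
    (hA : DependsOnly A f) : Measurable (gen a lam f) := by
  have : gen a lam f = fun x => ∑ i ∈ A, genAt a lam f i x := funext (gen_eq hA)
  rw [this]
  exact Finset.measurable_fun_sum _ (fun i _ => measurable_genAt ha hA i)

theorem NetworkLaw.shift (ha : Interference a) {μ : ℝ → Measure (Conf d)}
    (hμ : NetworkLaw a lam μ) (v : Site d) :
    NetworkLaw a lam (fun t => (μ t).map (IQ.shift v)) where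
  prob t ht := by
    have := hμ.prob t ht
    exact Measure.isProbabilityMeasure_map (measurable_shift v).aemeasurable
  init := by
    simp only [hμ.init]
    rw [Measure.map_dirac' (measurable_shift v)]
    rfl
  forward f hf t ht := by
    have hm : ∀ (g : Conf d → ℝ) (s : ℝ), Measurable g →
        ∫ x, g x ∂((μ s).map (IQ.shift v)) = ∫ x, g (IQ.shift v x) ∂(μ s) := fun g s hg =>
      integral_map (measurable_shift v).aemeasurable hg.aestronglyMeasurable
    obtain ⟨⟨A, hA⟩, B, hB⟩ := hf
    have h1 := hμ.forward _ (IsLocal.shift ⟨⟨A, hA⟩, B, hB⟩ v) t ht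
    simp only [hm _ _ (measurable_of_dep hA), hm _ _ (measurable_gen ha hA)]
    have e : ∀ x, gen a lam f (IQ.shift v x) = gen a lam (fun y => f (IQ.shift v y)) x :=
      fun x => (gen_shift v f x).symm
    simp only [e]
    exact h1

/-- translation invariance of the law -/
theorem trans_inv (ha : Interference a) (hlam : 0 ≤ lam) {μ : ℝ → Measure (Conf d)}
    (hμ : NetworkLaw a lam μ) (v : Site d) (t : ℝ) (ht : 0 ≤ t) {f : Conf d → ℝ} (hf : IsLocal f) :
    ∫ x, f (shift v x) ∂(μ t) = ∫ x, f x ∂(μ t) := by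
  rw [unique ha hlam hμ (hμ.shift ha v) t ht f hf]
  obtain ⟨⟨A, hA⟩, -⟩ := hf
  exact (integral_map (measurable_shift v).aemeasurable
    (measurable_of_dep hA).aestronglyMeasurable).symm

/-! ### The truncated second moment -/

/-- truncation at `K` -/
noncomputable def g (K : ℕ) (n : ℕ) : ℝ := (min n K : ℕ)

theorem g_nonneg (K n : ℕ) : 0 ≤ g K n := Nat.cast_nonneg _
theorem g_le (K n : ℕ) : g K n ≤ K := by unfold g; exact_mod_cast min_le_right _ _
theorem g_le_self (K n : ℕ) : g K n ≤ n := by unfold g; exact_mod_cast min_le_left _ _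

theorem g_succ (K n : ℕ) : g K (n + 1) - g K n = if n < K then 1 else 0 := by
  unfold g
  split_ifs with h
  · rw [min_eq_left (by omega), min_eq_left (by omega)]; push_cast; ring
  · rw [min_eq_right (by omega), min_eq_right (by omega)]; ring

theorem g_pred (K n : ℕ) : g K (n - 1) - g K n = if 1 ≤ n ∧ n ≤ K then -1 else 0 := by
  unfold g
  split_ifs with h
  · rw [min_eq_left (by omega), min_eq_left (by omega)]
    have : ((n - 1 : ℕ) : ℝ) = n - 1 := by
      rw [Nat.cast_sub h.1]; simp
    rw [this]; ring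
  · rcases Nat.eq_zero_or_pos n with h0 | h0
    · subst h0; simp
    · rw [min_eq_right (by omega), min_eq_right (by omega)]; ring

/-- the product of two truncated queue lengths -/
noncomputable def pr (K : ℕ) (k : Site d) (x : Conf d) : ℝ := g K (x 0) * g K (x k)

theorem pr_dep (K : ℕ) (k : Site d) : DependsOnly {0, k} (pr K k) := by
  intro x y h
  rw [pr, pr, h 0 (by simp), h k (by simp)]

theorem pr_bound (K : ℕ) (k : Site d) (x : Conf d) : |pr K k x| ≤ K * K := by
  rw [pr, abs_of_nonneg (mul_nonneg (g_nonneg _ _) (g_nonneg _ _))]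
  exact mul_le_mul (g_le _ _) (g_le _ _) (g_nonneg _ _) (Nat.cast_nonneg _)

theorem pr_local (K : ℕ) (k : Site d) : IsLocal (pr (d := d) K k) :=
  ⟨⟨_, pr_dep K k⟩, _, pr_bound K k⟩

/-- the drift of the truncated queue length at the origin -/
noncomputable def dr (a : Site d → ℝ) (lam : ℝ) (K : ℕ) (x : Conf d) : ℝ :=
  (if x 0 < K then lam else 0) - (if 1 ≤ x 0 ∧ x 0 ≤ K then rate a x 0 else 0)

theorem arrive_self (x : Conf d) (i : Site d) : arrive x i i = x i + 1 := by simp [arrive]
theorem arrive_ne (x : Conf d) {i j : Site d} (h : j ≠ i) : arrive x i j = x j := by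
  rw [arrive, Function.update_of_ne h]
theorem depart_self (x : Conf d) (i : Site d) : depart x i i = x i - 1 := by simp [depart]
theorem depart_ne (x : Conf d) {i j : Site d} (h : j ≠ i) : depart x i j = x j := by
  rw [depart, Function.update_of_ne h]

theorem genAt_zero_pr (K : ℕ) {k : Site d} (hk : k ≠ 0) (x : Conf d) :
    genAt a lam (pr K k) 0 x = dr a lam K x * g K (x k) := by
  rw [genAt, pr, pr, pr, arrive_self, arrive_ne x hk, depart_self, depart_ne x hk, dr]
  have h1 := g_succ K (x 0)
  have h2 := g_pred K (x 0)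
  have e1 : g K (x 0 + 1) * g K (x k) - g K (x 0) * g K (x k) =
      (if x 0 < K then 1 else 0) * g K (x k) := by rw [← h1]; ring
  have e2 : g K (x 0 - 1) * g K (x k) - g K (x 0) * g K (x k) =
      (if 1 ≤ x 0 ∧ x 0 ≤ K then -1 else 0) * g K (x k) := by rw [← h2]; ring
  rw [e1, e2]
  split_ifs <;> ring

theorem genAt_k_pr (K : ℕ) {k : Site d} (hk : k ≠ 0) (x : Conf d) :
    genAt a lam (pr K k) k x = dr a lam K (shift k x) * g K (shift k x (-k)) := by
  have e0 : shift k x 0 = x k := by simp [shift]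
  have ek : shift k x (-k) = x 0 := by simp [shift]
  have er : rate a (shift k x) 0 = rate a x k := by rw [rate_shift, zero_add]
  rw [dr, e0, ek, er, genAt, pr, pr, pr, arrive_self, arrive_ne x hk.symm, depart_self,
    depart_ne x hk.symm]
  have h1 := g_succ K (x k)
  have h2 := g_pred K (x k)
  have e1 : g K (x 0) * g K (x k + 1) - g K (x 0) * g K (x k) =
      (if x k < K then 1 else 0) * g K (x 0) := by rw [← h1]; ring
  have e2 : g K (x 0) * g K (x k - 1) - g K (x 0) * g K (x k) =
      (if 1 ≤ x k ∧ x k ≤ K then -1 else 0) * g K (x 0) := by rw [← h2]; ring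
  rw [e1, e2]
  split_ifs <;> ring

theorem drg_local (ha : Interference a) (hlam : 0 ≤ lam) (K : ℕ) (k : Site d) :
    IsLocal (fun x : Conf d => dr a lam K x * g K (x k)) := by
  refine ⟨⟨insert 0 (insert k (ha.S.image (fun j => 0 - j))), fun x y h => ?_⟩, (lam + 1) * K, fun x => ?_⟩
  · have h0 : x 0 = y 0 := h 0 (by simp)
    have hk : x k = y k := h k (by simp)
    have hr : rate a x 0 = rate a y 0 := rate_congr ha (fun j hj => h _ (by
      refine Finset.mem_insert_of_mem (Finset.mem_insert_of_mem ?_)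
      exact Finset.mem_image_of_mem _ hj))
    simp only [dr, h0, hk, hr]
  · rw [abs_mul, abs_of_nonneg (g_nonneg _ _)]
    apply mul_le_mul _ (g_le _ _) (g_nonneg _ _) (by positivity)
    have hr0 := rate_nonneg ha x 0
    have hr1 := rate_le_one ha x 0
    rw [dr, abs_le]
    constructor <;> split_ifs <;> linarith

/-- the expected generator of the product -/
theorem int_gen_pr (ha : Interference a) (hlam : 0 ≤ lam) {μ : ℝ → Measure (Conf d)}
    (hμ : NetworkLaw a lam μ) (K : ℕ) {k : Site d} (hk : k ≠ 0) (t : ℝ) (ht : 0 ≤ t) :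
    ∫ x, gen a lam (pr K k) x ∂(μ t) = ∫ x, dr a lam K x * g K (x k) ∂(μ t) +
      ∫ x, dr a lam K x * g K (x (-k)) ∂(μ t) := by
  have := hμ.prob t ht
  have h1 : ∀ x, gen a lam (pr K k) x = genAt a lam (pr K k) 0 x + genAt a lam (pr K k) k x := by
    intro x
    rw [gen_eq (pr_dep K k), Finset.sum_pair hk.symm]
  simp_rw [h1]
  rw [integral_add (integrable_of_dep (genAt_dep ha (pr_dep K k) 0)
      (genAt_bound ha hlam (pr_bound K k) 0) _)
    (integrable_of_dep (genAt_dep ha (pr_dep K k) k) (genAt_bound ha hlam (pr_bound K k) k) _)]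
  congr 1
  · exact integral_congr_ae (Filter.Eventually.of_forall (fun x => genAt_zero_pr K hk x))
  · rw [← trans_inv ha hlam hμ k t ht (drg_local ha hlam K (-k))]
    exact integral_congr_ae (Filter.Eventually.of_forall (fun x => genAt_k_pr K hk x))

/-- the support without the origin -/
noncomputable def Interference.S' (ha : Interference a) : Finset (Site d) := ha.S.erase 0

theorem Interference.neg_mem_S' (ha : Interference a) {k : Site d} (hk : k ∈ ha.S') : -k ∈ ha.S' := by
  rw [Interference.S', Finset.mem_erase, ha.mem_S] at hk ⊢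
  exact ⟨neg_ne_zero.2 hk.1, by rw [ha.symm]; exact hk.2⟩

theorem Interference.ne_zero (ha : Interference a) {k : Site d} (hk : k ∈ ha.S') : k ≠ 0 :=
  (Finset.mem_erase.1 hk).1

theorem Interference.sum_eq (ha : Interference a) (f : Site d → ℝ) :
    ∑ k ∈ ha.S, a k * f k = f 0 + ∑ k ∈ ha.S', a k * f k := by
  rw [Interference.S', ← Finset.add_sum_erase _ _ ha.zero_mem, ha.one, one_mul]

theorem Interference.sum_neg (ha : Interference a) (f : Site d → ℝ) :
    ∑ k ∈ ha.S', a k * f (-k) = ∑ k ∈ ha.S', a k * f k := by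
  apply Finset.sum_nbij' (fun k => -k) (fun k => -k) (fun k hk => ha.neg_mem_S' hk)
    (fun k hk => ha.neg_mem_S' hk) (fun k _ => neg_neg k) (fun k _ => neg_neg k)
  intro k _
  rw [ha.symm]

/-- the integrand of the derivative of the truncated second moment -/
noncomputable def W (ha : Interference a) (lam : ℝ) (K : ℕ) (x : Conf d) : ℝ :=
  (1 / 2) * genAt a lam (pr K 0) 0 x + ∑ k ∈ ha.S', a k * (dr a lam K x * g K (x k))

theorem rate_mul_le (ha : Interference a) (K : ℕ) (x : Conf d) :
    rate a x 0 * (x 0 + ∑ k ∈ ha.S', a k * g K (x k)) ≤ x 0 := by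
  have h1 : (x 0 : ℝ) + ∑ k ∈ ha.S', a k * g K (x k) ≤ ∑ j ∈ ha.S, a j * (x (0 - j) : ℝ) := by
    rw [ha.sum_eq (fun j => (x (0 - j) : ℝ))]
    simp only [sub_zero]
    have h2 : ∑ k ∈ ha.S', a k * (x (0 - k) : ℝ) = ∑ k ∈ ha.S', a k * (x k : ℝ) := by
      rw [← ha.sum_neg (fun k => (x k : ℝ))]
      exact Finset.sum_congr rfl (fun k _ => by rw [zero_sub])
    rw [h2]
    have h3 : ∑ k ∈ ha.S', a k * g K (x k) ≤ ∑ k ∈ ha.S', a k * (x k : ℝ) :=
      Finset.sum_le_sum (fun k _ => mul_le_mul_of_nonneg_left (g_le_self _ _) (ha.nonneg k))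
    linarith
  rcases Nat.eq_zero_or_pos (x 0) with h0 | h0
  · rw [rate, h0]; simp
  · rw [rate_eq ha]
    have hx : (0 : ℝ) < x 0 := by exact_mod_cast h0
    have hden : 0 < ∑ j ∈ ha.S, a j * (x (0 - j) : ℝ) := lt_of_lt_of_le hx (denom_ge ha x 0)
    rw [div_mul_eq_mul_div, div_le_iff₀ hden]
    exact mul_le_mul_of_nonneg_left h1 hx.le

theorem W_ge (ha : Interference a) (hlam : 0 ≤ lam) (hcrit : 1 ≤ lam * ∑ j ∈ ha.S, a j) (K : ℕ)
    (hK : 1 ≤ K) (x : Conf d) :
    (lam / 2) * (if x 0 < K then 1 else 0) - K * (if x 0 = K then 1 else 0) +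
      lam * ∑ k ∈ ha.S', a k * (g K (x k) - g K (x 0)) ≤ W ha lam K x := by
  have hS : ∑ j ∈ ha.S, a j = 1 + ∑ j ∈ ha.S', a j := by
    have := ha.sum_eq (fun _ => 1)
    simpa using this
  rw [hS] at hcrit
  set s := ∑ j ∈ ha.S', a j with hs
  set G := ∑ k ∈ ha.S', a k * g K (x k) with hG
  have hs0 : 0 ≤ s := Finset.sum_nonneg (fun k _ => ha.nonneg k)
  have hG0 : 0 ≤ G := Finset.sum_nonneg (fun k _ => mul_nonneg (ha.nonneg k) (g_nonneg _ _))
  have hGK : G ≤ s * K := by
    rw [hG, hs, Finset.sum_mul]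
    exact Finset.sum_le_sum (fun k _ => mul_le_mul_of_nonneg_left (g_le _ _) (ha.nonneg k))
  have e1 : ∑ k ∈ ha.S', a k * (g K (x k) - g K (x 0)) = G - s * g K (x 0) := by
    rw [hG, hs, Finset.sum_mul, ← Finset.sum_sub_distrib]
    exact Finset.sum_congr rfl (fun k _ => by ring)
  have e2 : ∑ k ∈ ha.S', a k * (dr a lam K x * g K (x k)) = dr a lam K x * G := by
    rw [hG, Finset.mul_sum]
    exact Finset.sum_congr rfl (fun k _ => by ring)
  have hR := rate_mul_le ha K x
  rw [← hG] at hR
  have hR0 := rate_nonneg ha x 0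
  have hR1 := rate_le_one ha x 0
  rw [W, e1, e2, genAt, pr, pr, pr, arrive_self, depart_self]
  set R := rate a x 0 with hRd
  have hKR : (1 : ℝ) ≤ K := by exact_mod_cast hK
  rcases lt_trichotomy (x 0) K with h | h | h
  · -- x 0 < K
    have g0 : g K (x 0) = x 0 := by unfold g; rw [min_eq_left h.le]
    have g1 : g K (x 0 + 1) = x 0 + 1 := by unfold g; rw [min_eq_left (by omega)]; push_cast; ring
    have hx0 : (0 : ℝ) ≤ x 0 := Nat.cast_nonneg _
    have hx : (lam * (1 + s) - 1) * x 0 ≥ 0 := mul_nonneg (by linarith) hx0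
    rw [if_pos h, if_neg h.ne, dr, if_pos h, g0, g1]
    rcases Nat.eq_zero_or_pos (x 0) with h0 | h0
    · have hRz : R = 0 := by rw [hRd, rate, h0]; simp
      rw [if_neg (by omega), hRz, h0]
      simp only [Nat.cast_zero]
      nlinarith
    · have gm : g K (x 0 - 1) = x 0 - 1 := by
        unfold g; rw [min_eq_left (by omega), Nat.cast_sub (by omega)]; simp
      rw [if_pos ⟨h0, h.le⟩, gm]
      nlinarith
  · -- x 0 = K
    have g0 : g K (x 0) = K := by unfold g; rw [h, min_self]
    have g1 : g K (x 0 + 1) = K := by unfold g; rw [h, min_eq_right (by omega)]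
    have gm : g K (x 0 - 1) = K - 1 := by
      unfold g; rw [h, min_eq_left (by omega), Nat.cast_sub (by omega)]; simp
    have hx : (x 0 : ℝ) = K := by rw [h]
    rw [hx] at hR
    rw [if_neg (by omega), if_pos h, dr, if_neg (by omega), if_pos ⟨by omega, h.le⟩, g0, g1, gm]
    have h3 : lam * (G - s * K) ≤ 0 := mul_nonpos_of_nonneg_of_nonpos hlam (by linarith)
    nlinarith
  · -- x 0 > K
    have g0 : g K (x 0) = K := by unfold g; rw [min_eq_right h.le]
    have g1 : g K (x 0 + 1) = K := by unfold g; rw [min_eq_right (by omega)]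
    have gm : g K (x 0 - 1) = K := by unfold g; rw [min_eq_right (by omega)]
    rw [if_neg (by omega), if_neg (by omega), dr, if_neg (by omega), if_neg (by omega), g0, g1, gm]
    have h3 : lam * (G - s * K) ≤ 0 := mul_nonpos_of_nonneg_of_nonpos hlam (by linarith)
    nlinarith

/-- the truncated second moment -/
noncomputable def Fn (ha : Interference a) (K : ℕ) (ν : Measure (Conf d)) : ℝ :=
  (1 / 2) * ∫ x, pr K 0 x ∂ν + (1 / 2) * ∑ k ∈ ha.S', a k * ∫ x, pr K k x ∂ν

theorem prob_real {ν : Measure (Conf d)} [IsFiniteMeasure ν] (p : ℕ → Prop) [DecidablePred p] :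
    ∫ x : Conf d, (if p (x 0) then (1 : ℝ) else 0) ∂ν = ν.real {x | p (x 0)} := by
  have h : (fun x : Conf d => if p (x 0) then (1 : ℝ) else 0) = Set.indicator {x | p (x 0)} 1 := by
    funext x
    by_cases hx : p (x 0)
    · simp [hx]
    · simp [hx]
  rw [h, integral_indicator_one]
  have : {x : Conf d | p (x 0)} = (fun x : Conf d => x 0) ⁻¹' {n | p n} := rfl
  rw [this]
  exact (measurable_pi_apply 0) (MeasurableSet.of_discrete)

theorem g_local (K : ℕ) (k : Site d) : IsLocal (fun x : Conf d => g K (x k)) :=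
  ⟨⟨{k}, fun x y h => by simp only [h k (by simp)]⟩, K, fun x => by
    rw [abs_of_nonneg (g_nonneg _ _)]; exact g_le _ _⟩

theorem IsLocal.integrable {f : Conf d → ℝ} (hf : IsLocal f) (ν : Measure (Conf d))
    [IsFiniteMeasure ν] : Integrable f ν := by
  obtain ⟨⟨A, hA⟩, B, hB⟩ := hf
  exact integrable_of_dep hA hB ν

theorem Fn_deriv (ha : Interference a) (hlam : 0 ≤ lam) {μ : ℝ → Measure (Conf d)}
    (hμ : NetworkLaw a lam μ) (K : ℕ) (t : ℝ) (ht : 0 ≤ t) :
    HasDerivWithinAt (fun s => Fn ha K (μ s)) (∫ x, W ha lam K x ∂(μ t)) (Set.Ici 0) t := by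
  have := hμ.prob t ht
  have h1 : HasDerivWithinAt (fun s => Fn ha K (μ s))
      ((1 / 2) * ∫ x, gen a lam (pr K 0) x ∂(μ t) +
        (1 / 2) * ∑ k ∈ ha.S', a k * ∫ x, gen a lam (pr K k) x ∂(μ t)) (Set.Ici 0) t := by
    unfold Fn
    refine ((hμ.forward _ (pr_local K 0) t ht).const_mul _).add (HasDerivWithinAt.const_mul _ ?_)
    exact HasDerivWithinAt.fun_sum (fun k _ => (hμ.forward _ (pr_local K k) t ht).const_mul _)
  convert h1 using 1
  have e1 : ∑ k ∈ ha.S', a k * ∫ x, gen a lam (pr K k) x ∂(μ t) =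
      2 * ∑ k ∈ ha.S', a k * ∫ x, dr a lam K x * g K (x k) ∂(μ t) := by
    have : ∀ k ∈ ha.S', a k * ∫ x, gen a lam (pr K k) x ∂(μ t) =
        a k * (∫ x, dr a lam K x * g K (x k) ∂(μ t)) +
        a k * (∫ x, dr a lam K x * g K (x (-k)) ∂(μ t)) := fun k hk => by
      rw [int_gen_pr ha hlam hμ K (ha.ne_zero hk) t ht]; ring
    rw [Finset.sum_congr rfl this, Finset.sum_add_distrib,
      ha.sum_neg (fun k => ∫ x, dr a lam K x * g K (x k) ∂(μ t))]
    ring
  have e2 : ∫ x, gen a lam (pr K 0) x ∂(μ t) = ∫ x, genAt a lam (pr K 0) 0 x ∂(μ t) := by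
    apply integral_congr_ae
    refine Filter.Eventually.of_forall (fun x => ?_)
    show gen a lam (pr K 0) x = genAt a lam (pr K 0) 0 x
    rw [gen_eq (pr_dep K 0)]
    simp
  rw [e1, e2]
  unfold W
  rw [integral_add, integral_const_mul, integral_finsetSum]
  · simp_rw [integral_const_mul]
    ring
  · intro k _
    exact ((drg_local ha hlam K k).integrable _).const_mul _
  · exact (integrable_of_dep (genAt_dep ha (pr_dep K 0) 0)
      (genAt_bound ha hlam (pr_bound K 0) 0) _).const_mul _
  · exact integrable_finsetSum _ (fun k _ => ((drg_local ha hlam K k).integrable _).const_mul _)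

theorem W_int_ge (ha : Interference a) (hlam : 0 ≤ lam) (hcrit : 1 ≤ lam * ∑ j ∈ ha.S, a j)
    {μ : ℝ → Measure (Conf d)} (hμ : NetworkLaw a lam μ) (K : ℕ) (hK : 1 ≤ K) (t : ℝ) (ht : 0 ≤ t) :
    (lam / 2) * (μ t).real {x | x 0 < K} - K * (μ t).real {x | x 0 = K} ≤
      ∫ x, W ha lam K x ∂(μ t) := by
  have := hμ.prob t ht
  have i1 : Integrable (fun x : Conf d => if x 0 < K then (1 : ℝ) else 0) (μ t) :=
    IsLocal.integrable ⟨⟨{0}, fun x y h => by simp only [h 0 (by simp)]⟩, 1, fun x => by
      split_ifs <;> simp⟩ _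
  have i2 : Integrable (fun x : Conf d => if x 0 = K then (1 : ℝ) else 0) (μ t) :=
    IsLocal.integrable ⟨⟨{0}, fun x y h => by simp only [h 0 (by simp)]⟩, 1, fun x => by
      split_ifs <;> simp⟩ _
  have i3 : ∀ k, Integrable (fun x : Conf d => a k * (g K (x k) - g K (x 0))) (μ t) := fun k =>
    (((g_local K k).integrable _).sub ((g_local K 0).integrable _)).const_mul _
  have i4 : Integrable (W ha lam K) (μ t) := by
    unfold W
    exact ((integrable_of_dep (genAt_dep ha (pr_dep K 0) 0)
      (genAt_bound ha hlam (pr_bound K 0) 0) _).const_mul _).add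
      (integrable_finsetSum _ (fun k _ => ((drg_local ha hlam K k).integrable _).const_mul _))
  have h := integral_mono (((i1.const_mul (lam / 2)).sub (i2.const_mul (K : ℝ))).add
    ((integrable_finsetSum ha.S' (fun k _ => i3 k)).const_mul lam)) i4
    (fun x => W_ge ha hlam hcrit K hK x)
  refine le_trans (le_of_eq ?_) h
  simp only [Pi.add_apply, Pi.sub_apply]
  rw [integral_add (by exact (i1.const_mul (lam / 2)).sub (i2.const_mul (K : ℝ)))
    (by exact (integrable_finsetSum ha.S' (fun k _ => i3 k)).const_mul lam),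
    integral_sub (i1.const_mul (lam / 2)) (i2.const_mul (K : ℝ)),
    integral_const_mul, integral_const_mul, integral_const_mul, integral_finsetSum _ (fun k _ => i3 k),
    prob_real (fun n => n < K), prob_real (fun n => n = K)]
  have e : ∀ k ∈ ha.S', ∫ x : Conf d, a k * (g K (x k) - g K (x 0)) ∂(μ t) = 0 := by
    intro k _
    rw [integral_const_mul, integral_sub ((g_local K k).integrable _) ((g_local K 0).integrable _)]
    have e1 := trans_inv ha hlam hμ k t ht (g_local K 0)
    have e2 : ∀ x : Conf d, g K (IQ.shift k x 0) = g K (x k) := fun x => by simp [IQ.shift]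
    simp only [e2] at e1
    rw [e1, sub_self, mul_zero]
  rw [Finset.sum_eq_zero e, mul_zero, add_zero]

theorem Fn_bound (ha : Interference a) (K : ℕ) (ν : Measure (Conf d)) [IsProbabilityMeasure ν] :
    |Fn ha K ν| ≤ (1 / 2) * (K * K) + (1 / 2) * ∑ k ∈ ha.S', a k * (K * K) := by
  have h : ∀ k : Site d, |∫ x, pr K k x ∂ν| ≤ K * K := fun k => by
    have := norm_integral_le_of_norm_le_const (μ := ν) (f := pr K k) (C := (K : ℝ) * K)
        (Filter.Eventually.of_forall (fun x => by rw [Real.norm_eq_abs]; exact pr_bound K k x))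
    simpa using this
  unfold Fn
  refine (abs_add_le _ _).trans (add_le_add ?_ ?_)
  · rw [abs_mul, abs_of_nonneg (by norm_num : (0 : ℝ) ≤ 1 / 2)]
    exact mul_le_mul_of_nonneg_left (h 0) (by norm_num)
  · rw [abs_mul, abs_of_nonneg (by norm_num : (0 : ℝ) ≤ 1 / 2)]
    refine mul_le_mul_of_nonneg_left ?_ (by norm_num)
    refine (Finset.abs_sum_le_sum_abs _ _).trans (Finset.sum_le_sum (fun k _ => ?_))
    rw [abs_mul, abs_of_nonneg (ha.nonneg k)]
    exact mul_le_mul_of_nonneg_left (h k) (ha.nonneg k)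

/-- the key inequality for the limit law -/
theorem key (ha : Interference a) (hlam : 0 ≤ lam) (hcrit : 1 ≤ lam * ∑ j ∈ ha.S, a j)
    {μ : ℝ → Measure (Conf d)} (hμ : NetworkLaw a lam μ) {q : ℕ → ℝ}
    (hq : ∀ k : ℕ, Tendsto (fun t => (μ t).real {x | x 0 = k}) atTop (𝓝 (q k)))
    (K : ℕ) (hK : 1 ≤ K) : (lam / 2) * ∑ j ∈ Finset.range K, q j ≤ K * q K := by
  by_contra hcon
  push Not at hcon
  -- the lower bound of the derivative has a positive limit
  have hsum : ∀ t, 0 ≤ t → (μ t).real {x | x 0 < K} = ∑ j ∈ Finset.range K, (μ t).real {x | x 0 = j} := by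
    intro t ht
    have := hμ.prob t ht
    have e : {x : Conf d | x 0 < K} = ⋃ j ∈ Finset.range K, {x : Conf d | x 0 = j} := by
      ext x
      simp
    rw [e, measureReal_biUnion_finset]
    · intro i _ j _ hij
      rw [Function.onFun, Set.disjoint_left]
      intro x hx hy
      exact hij (by rw [Set.mem_ofPred_eq] at hx hy; rw [← hx, ← hy])
    · intro j _
      exact measurableSet_eq_fun (measurable_pi_apply 0) measurable_const
  have hlim : Tendsto (fun t => (lam / 2) * (∑ j ∈ Finset.range K, (μ t).real {x | x 0 = j}) -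
      K * (μ t).real {x | x 0 = K}) atTop
      (𝓝 ((lam / 2) * ∑ j ∈ Finset.range K, q j - K * q K)) :=
    ((tendsto_finsetSum _ (fun j _ => hq j)).const_mul _).sub ((hq K).const_mul _)
  set c := ((lam / 2) * ∑ j ∈ Finset.range K, q j - K * q K) / 2 with hc
  have hc0 : 0 < c := by rw [hc]; linarith
  have hev : ∀ᶠ t in atTop, c ≤ (lam / 2) * (∑ j ∈ Finset.range K, (μ t).real {x | x 0 = j}) -
      K * (μ t).real {x | x 0 = K} := by
    have : c < (lam / 2) * ∑ j ∈ Finset.range K, q j - K * q K := by rw [hc]; linarith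
    exact (hlim.eventually (lt_mem_nhds this)).mono (fun t ht => ht.le)
  obtain ⟨T, hT⟩ := eventually_atTop.1 (hev.and (eventually_ge_atTop 0))
  have hT0 : 0 ≤ T := (hT T le_rfl).2
  -- the function grows at least linearly
  set F : ℝ → ℝ := fun s => Fn ha K (μ s) with hF
  have hgrow : ∀ t, T ≤ t → c * (t - T) + F T ≤ F t := by
    intro t ht
    have hd : ∀ s, T ≤ s → HasDerivWithinAt (fun s => -F s) (-∫ x, W ha lam K x ∂(μ s)) (Set.Ici 0) s :=
      fun s hs => (Fn_deriv ha hlam hμ K s (hT0.trans hs)).neg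
    have := image_le_of_deriv_right_le_deriv_boundary (f := fun s => -F s)
      (f' := fun s => -∫ x, W ha lam K x ∂(μ s)) (a := T) (b := t)
      (fun s hs => ((hd s hs.1).continuousWithinAt).mono (fun y hy => hT0.trans hy.1))
      (fun s hs => (hd s hs.1).mono (Set.Ici_subset_Ici.2 (hT0.trans hs.1)))
      (B := fun s => -(c * (s - T)) - F T) (B' := fun _ => -c)
      (by simp)
      (by fun_prop)
      (fun s _ => by
        have h1 : HasDerivAt (fun s : ℝ => -(c * (s - T)) - F T) (-(c * 1)) s :=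
          ((((hasDerivAt_id' s).sub_const T).const_mul c).neg).sub_const _
        rw [mul_one] at h1
        exact h1.hasDerivWithinAt)
      (fun s hs => by
        have h1 := hT s hs.1
        have h2 := W_int_ge ha hlam hcrit hμ K hK s (hT0.trans hs.1)
        rw [hsum s (hT0.trans hs.1)] at h2
        linarith [h1.1])
      (x := t) ⟨ht, le_rfl⟩
    linarith
  -- but it is bounded
  set C := (1 / 2) * ((K : ℝ) * K) + (1 / 2) * ∑ k ∈ ha.S', a k * ((K : ℝ) * K) with hC
  have hb : ∀ t, 0 ≤ t → |F t| ≤ C := fun t ht => by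
    have := hμ.prob t ht
    exact Fn_bound ha K (μ t)
  have h1 := hgrow (T + (2 * C + 1) / c) (by
    have : 0 ≤ C := (abs_nonneg _).trans (hb 0 le_rfl)
    have : 0 ≤ (2 * C + 1) / c := by positivity
    linarith)
  have h2 := hb (T + (2 * C + 1) / c) (by
    have : 0 ≤ C := (abs_nonneg _).trans (hb 0 le_rfl)
    have : 0 ≤ (2 * C + 1) / c := by positivity
    linarith)
  have h3 := hb T hT0
  have h4 : c * (T + (2 * C + 1) / c - T) = 2 * C + 1 := by
    field_simp
    ring
  rw [h4] at h1
  rw [abs_le] at h2 h3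
  linarith

theorem unstable_zero (ha : Interference a) (hlam : 0 ≤ lam) (hcrit : 1 ≤ lam * ∑ j ∈ ha.S, a j)
    {μ : ℝ → Measure (Conf d)} (hμ : NetworkLaw a lam μ) : ¬ StableAt μ 0 := by
  rintro ⟨q, hq1, hq⟩
  have hlam0 : 0 < lam := by
    rcases hlam.eq_or_lt with h | h
    · rw [← h] at hcrit; norm_num at hcrit
    · exact h
  have hkey := fun K hK => key ha hlam hcrit hμ hq K hK
  -- partial sums are eventually at least 1/2
  have h1 : ∀ᶠ K in atTop, (1 / 2 : ℝ) ≤ ∑ j ∈ Finset.range K, q j :=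
    (hq1.tendsto_sum_nat.eventually (lt_mem_nhds (by norm_num : (1 / 2 : ℝ) < 1))).mono
      (fun K h => h.le)
  obtain ⟨K0, hK0⟩ := eventually_atTop.1 (h1.and (eventually_ge_atTop 1))
  have h2 : ∀ K, K0 ≤ K → (lam / 4) * (1 / (K : ℝ)) ≤ q K := by
    intro K hK
    obtain ⟨h3, h4⟩ := hK0 K hK
    have h5 := hkey K h4
    have hKp : (0 : ℝ) < K := by exact_mod_cast h4
    have h6 : lam / 4 ≤ K * q K := by nlinarith
    rw [mul_one_div, div_le_iff₀ hKp]
    linarith
  have hsum : Summable (fun K : ℕ => (lam / 4) * (1 / (K : ℝ))) := by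
    apply Summable.of_norm_bounded_eventually_nat hq1.summable
    filter_upwards [eventually_ge_atTop K0] with K hK
    rw [Real.norm_of_nonneg (by positivity)]
    exact h2 K hK
  rw [summable_mul_left_iff (by positivity)] at hsum
  exact Real.not_summable_one_div_natCast hsum

/-- The queue at any site is not stable. -/
theorem unstable (ha : Interference a) (hlam : 0 ≤ lam) (hcrit : 1 ≤ lam * ∑ j ∈ ha.S, a j)
    {μ : ℝ → Measure (Conf d)} (hμ : NetworkLaw a lam μ) (i : Site d) : ¬ StableAt μ i := by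
  rintro ⟨q, hq1, hq⟩
  apply unstable_zero ha hlam hcrit hμ
  refine ⟨q, hq1, fun k => ?_⟩
  refine (hq k).congr' ?_
  filter_upwards [eventually_ge_atTop 0] with t ht
  have := hμ.prob t ht
  have hloc : IsLocal (fun x : Conf d => if x 0 = k then (1 : ℝ) else 0) :=
    ⟨⟨{0}, fun x y h => by simp only [h 0 (by simp)]⟩, 1, fun x => by
      show |(if x 0 = k then (1 : ℝ) else 0)| ≤ 1
      split_ifs <;> simp⟩
  have h1 := trans_inv ha hlam hμ i t ht hloc
  rw [prob_real (fun n => n = k)] at h1
  rw [← h1]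
  have h2 : (fun x : Conf d => if IQ.shift i x 0 = k then (1 : ℝ) else 0) =
      Set.indicator {x | x i = k} 1 := by
    funext x
    have : IQ.shift i x 0 = x i := by simp [IQ.shift]
    rw [this]
    by_cases hx : x i = k
    · simp [hx]
    · simp [hx]
  simp only [h2]
  rw [integral_indicator_one]
  exact measurableSet_eq_fun (measurable_pi_apply i) measurable_const

end Pool.Agent.R952.IQ
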