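import Pool.Agent.R952.IQDefs

/-!
# Interference queueing networks: locality of the generator, uniqueness of the law
-/

set_option autoImplicit false

open MeasureTheory Filter Topology

namespace Pool.Agent.R952.IQ

variable {d : ℕ} {a : Site d → ℝ} {lam : ℝ}

/-- the support of the interference sequence -/
noncomputable def Interference.S (ha : Interference a) : Finset (Site d) := ha.finite.toFinset

theorem Interference.mem_S (ha : Interference a) (j : Site d) : j ∈ ha.S ↔ a j ≠ 0 := by
  simp [Interference.S]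

theorem Interference.zero_mem (ha : Interference a) : (0 : Site d) ∈ ha.S := by
  rw [ha.mem_S, ha.one]; norm_num

theorem denom_eq (ha : Interference a) (x : Conf d) (i : Site d) :
    ∑ᶠ j, a j * (x (i - j) : ℝ) = ∑ j ∈ ha.S, a j * (x (i - j) : ℝ) := by
  apply finsum_eq_sum_of_support_subset
  intro j hj
  simp only [Function.mem_support] at hj
  rw [Finset.mem_coe, ha.mem_S]
  intro h
  exact hj (by rw [h, zero_mul])

theorem suma_eq (ha : Interference a) : ∑ᶠ j, a j = ∑ j ∈ ha.S, a j := by
  apply finsum_eq_sum_of_support_subset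
  intro j hj
  rw [Finset.mem_coe, ha.mem_S]
  exact hj

theorem rate_eq (ha : Interference a) (x : Conf d) (i : Site d) :
    rate a x i = (x i : ℝ) / ∑ j ∈ ha.S, a j * (x (i - j) : ℝ) := by
  rw [rate, denom_eq ha]

theorem denom_ge (ha : Interference a) (x : Conf d) (i : Site d) :
    (x i : ℝ) ≤ ∑ j ∈ ha.S, a j * (x (i - j) : ℝ) := by
  have h := Finset.single_le_sum (f := fun j => a j * (x (i - j) : ℝ))
    (fun j _ => mul_nonneg (ha.nonneg j) (Nat.cast_nonneg _)) ha.zero_mem
  simpa [ha.one] using h

theorem denom_nonneg (ha : Interference a) (x : Conf d) (i : Site d) :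
    0 ≤ ∑ j ∈ ha.S, a j * (x (i - j) : ℝ) :=
  Finset.sum_nonneg (fun j _ => mul_nonneg (ha.nonneg j) (Nat.cast_nonneg _))

theorem rate_nonneg (ha : Interference a) (x : Conf d) (i : Site d) : 0 ≤ rate a x i := by
  rw [rate_eq ha]
  exact div_nonneg (Nat.cast_nonneg _) (denom_nonneg ha x i)

theorem rate_le_one (ha : Interference a) (x : Conf d) (i : Site d) : rate a x i ≤ 1 := by
  rw [rate_eq ha]
  exact div_le_one_of_le₀ (denom_ge ha x i) (denom_nonneg ha x i)

theorem rate_congr (ha : Interference a) {x y : Conf d} {i : Site d}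
    (h : ∀ j ∈ ha.S, x (i - j) = y (i - j)) : rate a x i = rate a y i := by
  rw [rate_eq ha, rate_eq ha]
  have h0 := h 0 ha.zero_mem
  rw [sub_zero] at h0
  rw [h0]
  congr 1
  exact Finset.sum_congr rfl (fun j hj => by rw [h j hj])

/-- the part of the generator which belongs to the site `i` -/
noncomputable def genAt (a : Site d → ℝ) (lam : ℝ) (f : Conf d → ℝ) (i : Site d) (x : Conf d) : ℝ :=
  lam * (f (arrive x i) - f x) + rate a x i * (f (depart x i) - f x)

theorem genAt_zero {A : Finset (Site d)} {f : Conf d → ℝ} (hf : DependsOnly A f) {i : Site d}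
    (hi : i ∉ A) (x : Conf d) : genAt a lam f i x = 0 := by
  have h1 : f (arrive x i) = f x := hf _ _ (fun j hj => by
    rw [arrive, Function.update_of_ne]
    rintro rfl; exact hi hj)
  have h2 : f (depart x i) = f x := hf _ _ (fun j hj => by
    rw [depart, Function.update_of_ne]
    rintro rfl; exact hi hj)
  rw [genAt, h1, h2]; ring

theorem gen_eq {A : Finset (Site d)} {f : Conf d → ℝ} (hf : DependsOnly A f) (x : Conf d) :
    gen a lam f x = ∑ i ∈ A, genAt a lam f i x := by
  apply finsum_eq_sum_of_support_subset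
  intro i hi
  rw [Finset.mem_coe]
  by_contra h
  exact hi (genAt_zero hf h x)

theorem genAt_dep (ha : Interference a) {A : Finset (Site d)} {f : Conf d → ℝ}
    (hf : DependsOnly A f) (i : Site d) :
    DependsOnly (A ∪ ha.S.image (fun j => i - j)) (genAt a lam f i) := by
  intro x y h
  have hi : x i = y i := h i (Finset.mem_union_right _ (Finset.mem_image.2 ⟨0, ha.zero_mem, by simp⟩))
  have h1 : f (arrive x i) = f (arrive y i) := hf _ _ (fun j hj => by
    by_cases hj' : j = i
    · subst hj'; simp [arrive, hi]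
    · rw [arrive, arrive, Function.update_of_ne hj', Function.update_of_ne hj']
      exact h j (Finset.mem_union_left _ hj))
  have h2 : f (depart x i) = f (depart y i) := hf _ _ (fun j hj => by
    by_cases hj' : j = i
    · subst hj'; simp [depart, hi]
    · rw [depart, depart, Function.update_of_ne hj', Function.update_of_ne hj']
      exact h j (Finset.mem_union_left _ hj))
  have h3 : f x = f y := hf _ _ (fun j hj => h j (Finset.mem_union_left _ hj))
  have h4 : rate a x i = rate a y i := rate_congr ha (fun j hj =>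
    h _ (Finset.mem_union_right _ (Finset.mem_image.2 ⟨j, hj, rfl⟩)))
  rw [genAt, genAt, h1, h2, h3, h4]

theorem genAt_bound (ha : Interference a) (hlam : 0 ≤ lam) {f : Conf d → ℝ} {B : ℝ}
    (hB : ∀ x, |f x| ≤ B) (i : Site d) (x : Conf d) :
    |genAt a lam f i x| ≤ 2 * (lam + 1) * B := by
  have h1 : |f (arrive x i) - f x| ≤ 2 * B := by
    have := abs_sub (f (arrive x i)) (f x)
    have h2 := hB (arrive x i)
    have h3 := hB x
    linarith
  have h2 : |f (depart x i) - f x| ≤ 2 * B := by
    have := abs_sub (f (depart x i)) (f x)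
    have h2 := hB (depart x i)
    have h3 := hB x
    linarith
  have hr0 := rate_nonneg ha x i
  have hr1 := rate_le_one ha x i
  have hB0 : 0 ≤ B := (abs_nonneg _).trans (hB x)
  calc |genAt a lam f i x| ≤ |lam * (f (arrive x i) - f x)| + |rate a x i * (f (depart x i) - f x)| :=
        abs_add_le _ _
    _ = lam * |f (arrive x i) - f x| + rate a x i * |f (depart x i) - f x| := by
        rw [abs_mul, abs_mul, abs_of_nonneg hlam, abs_of_nonneg hr0]
    _ ≤ lam * (2 * B) + 1 * (2 * B) := by
        apply add_le_add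
        · exact mul_le_mul_of_nonneg_left h1 hlam
        · exact mul_le_mul hr1 h2 (abs_nonneg _) zero_le_one
    _ = 2 * (lam + 1) * B := by ring

/-! ### Measurability and integrability of local functions -/

theorem measurable_of_dep {A : Finset (Site d)} {f : Conf d → ℝ} (hf : DependsOnly A f) :
    Measurable f := by
  classical
  have h : f = (fun z : A → ℕ => f (fun i => if h : i ∈ A then z ⟨i, h⟩ else 0)) ∘
      (fun x : Conf d => fun i : A => x i) := by
    funext x
    simp only [Function.comp]
    apply hf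
    intro i hi
    simp [hi]
  rw [h]
  apply Measurable.comp
  · exact measurable_of_countable _
  · exact measurable_pi_lambda _ (fun i => measurable_pi_apply _)

theorem integrable_of_dep {A : Finset (Site d)} {f : Conf d → ℝ} (hf : DependsOnly A f) {B : ℝ}
    (hB : ∀ x, |f x| ≤ B) (ν : Measure (Conf d)) [IsFiniteMeasure ν] : Integrable f ν :=
  Integrable.of_bound (measurable_of_dep hf).aestronglyMeasurable B
    (Filter.Eventually.of_forall (fun x => by rw [Real.norm_eq_abs]; exact hB x))

/-! ### Uniqueness -/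

/-- the bound of the `n`-th step of the iteration -/
noncomputable def bnd (c q m : ℝ) (n : ℕ) : ℝ := (∏ k ∈ Finset.range n, (c * (m + k * q) / (k + 1)))

theorem bnd_succ' (c q m : ℝ) (n : ℕ) :
    c * m * bnd c q (m + q) n = bnd c q m (n + 1) * (n + 1) := by
  induction n with
  | zero => simp [bnd]
  | succ n ih =>
    have h1 : bnd c q (m + q) (n + 1) = bnd c q (m + q) n * (c * (m + q + n * q) / (n + 1)) := by
      rw [bnd, Finset.prod_range_succ, ← bnd]
    have h2 : bnd c q m (n + 1 + 1) = bnd c q m (n + 1) * (c * (m + (n + 1 : ℕ) * q) / ((n + 1 : ℕ) + 1)) := by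
      rw [bnd, Finset.prod_range_succ, ← bnd]
    rw [h1, h2]
    have hn : (0 : ℝ) < (n : ℝ) + 1 := by positivity
    have hn2 : (0 : ℝ) < ((n + 1 : ℕ) : ℝ) + 1 := by positivity
    calc c * m * (bnd c q (m + q) n * (c * (m + q + n * q) / (n + 1)))
        = (c * m * bnd c q (m + q) n) * (c * (m + q + n * q) / (n + 1)) := by ring
      _ = (bnd c q m (n + 1) * (n + 1)) * (c * (m + q + n * q) / (n + 1)) := by rw [ih]
      _ = bnd c q m (n + 1) * (c * (m + (n + 1 : ℕ) * q) / ((n + 1 : ℕ) + 1)) * ((n + 1 : ℕ) + 1) := by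
          push_cast
          field_simp
          ring

theorem bnd_nonneg {c q m : ℝ} (hc : 0 ≤ c) (hq : 0 ≤ q) (hm : 0 ≤ m) (n : ℕ) : 0 ≤ bnd c q m n :=
  Finset.prod_nonneg (fun k _ => by positivity)

/-- `μ` solves the forward equation from time `s` on -/
theorem iter_bound (ha : Interference a) (hlam : 0 ≤ lam) {μ ν : ℝ → Measure (Conf d)}
    (hμ : NetworkLaw a lam μ) (hν : NetworkLaw a lam ν) {s : ℝ} (hs : 0 ≤ s)
    (h0 : ∀ f, IsLocal f → ∫ x, f x ∂(μ s) = ∫ x, f x ∂(ν s)) (n : ℕ) :
    ∀ (m : ℕ) (A : Finset (Site d)) (f : Conf d → ℝ) (B : ℝ), DependsOnly A f → (∀ x, |f x| ≤ B) →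
      A.card ≤ m → ∀ t, s ≤ t →
      |∫ x, f x ∂(μ t) - ∫ x, f x ∂(ν t)| ≤
        2 * B * (bnd (2 * (lam + 1)) ha.S.card m n * (t - s) ^ n) := by
  induction n with
  | zero =>
    intro m A f B hA hB _ t ht
    have := hμ.prob t (hs.trans ht)
    have := hν.prob t (hs.trans ht)
    have h1 : |∫ x, f x ∂(μ t)| ≤ B := by
      have := norm_integral_le_of_norm_le_const (μ := μ t) (f := f) (C := B)
        (Filter.Eventually.of_forall (fun x => by rw [Real.norm_eq_abs]; exact hB x))
      simpa using this
    have h2 : |∫ x, f x ∂(ν t)| ≤ B := by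
      have := norm_integral_le_of_norm_le_const (μ := ν t) (f := f) (C := B)
        (Filter.Eventually.of_forall (fun x => by rw [Real.norm_eq_abs]; exact hB x))
      simpa using this
    have h3 := abs_sub (∫ x, f x ∂(μ t)) (∫ x, f x ∂(ν t))
    simp only [bnd, Finset.range_zero, Finset.prod_empty, pow_zero, mul_one]
    linarith
  | succ n ih =>
    intro m A f B hA hB hm t ht
    have hloc : IsLocal f := ⟨⟨A, hA⟩, ⟨B, hB⟩⟩
    have hB0 : 0 ≤ B := (abs_nonneg _).trans (hB 0)
    set c := 2 * (lam + 1) with hc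
    have hc0 : 0 ≤ c := by positivity
    set q : ℝ := (ha.S.card : ℝ) with hq
    have hq0 : 0 ≤ q := Nat.cast_nonneg _
    -- derivative
    set h : ℝ → ℝ := fun r => ∫ x, f x ∂(μ r) - ∫ x, f x ∂(ν r) with hh
    set h' : ℝ → ℝ := fun r => ∫ x, gen a lam f x ∂(μ r) - ∫ x, gen a lam f x ∂(ν r) with hh'
    have hder : ∀ r, s ≤ r → HasDerivWithinAt h (h' r) (Set.Ici 0) r := fun r hr =>
      (hμ.forward f hloc r (hs.trans hr)).sub (hν.forward f hloc r (hs.trans hr))
    have hcont : ContinuousOn h (Set.Icc s t) := by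
      intro r hr
      exact ((hder r hr.1).continuousWithinAt).mono (fun y hy => hs.trans hy.1)
    have hbound : ∀ r, s ≤ r → ‖h' r‖ ≤ 2 * B * (bnd c q m (n + 1) * ((n + 1 : ℕ) * (r - s) ^ n)) := by
      intro r hr
      have hpμ := hμ.prob r (hs.trans hr)
      have hpν := hν.prob r (hs.trans hr)
      have e1 : ∀ κ : Measure (Conf d), IsProbabilityMeasure κ →
          ∫ x, gen a lam f x ∂κ = ∑ i ∈ A, ∫ x, genAt a lam f i x ∂κ := by
        intro κ hκ
        simp_rw [gen_eq hA]
        rw [integral_finsetSum]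
        intro i _
        exact integrable_of_dep (genAt_dep ha hA i) (genAt_bound ha hlam hB i) κ
      have e2 : h' r = ∑ i ∈ A, (∫ x, genAt a lam f i x ∂(μ r) - ∫ x, genAt a lam f i x ∂(ν r)) := by
        rw [hh']
        simp only
        rw [e1 _ hpμ, e1 _ hpν, ← Finset.sum_sub_distrib]
      rw [e2]
      have e3 : ∀ i ∈ A, ‖∫ x, genAt a lam f i x ∂(μ r) - ∫ x, genAt a lam f i x ∂(ν r)‖ ≤
          2 * (c * B) * (bnd c q (m + q) n * (r - s) ^ n) := by
        intro i _
        rw [Real.norm_eq_abs]
        have := ih (m + ha.S.card) _ _ (c * B) (genAt_dep ha hA i) (genAt_bound ha hlam hB i) (by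
          refine (Finset.card_union_le _ _).trans (add_le_add hm ?_)
          exact Finset.card_image_le) r hr
        simpa using this
      refine (norm_sum_le_of_le _ e3).trans ?_
      rw [Finset.sum_const, nsmul_eq_mul]
      have e4 : (A.card : ℝ) ≤ m := by exact_mod_cast hm
      have e5 : 0 ≤ 2 * (c * B) * (bnd c q (m + q) n * (r - s) ^ n) := by
        have := bnd_nonneg (m := m + q) hc0 hq0 (by positivity) n
        have h6 : 0 ≤ r - s := by linarith
        positivity
      refine (mul_le_mul_of_nonneg_right e4 e5).trans (le_of_eq ?_)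
      have e6 := bnd_succ' c q m n
      calc (m : ℝ) * (2 * (c * B) * (bnd c q (m + q) n * (r - s) ^ n))
          = 2 * B * ((c * m * bnd c q (m + q) n) * (r - s) ^ n) := by ring
        _ = 2 * B * ((bnd c q m (n + 1) * (n + 1)) * (r - s) ^ n) := by rw [e6]
        _ = _ := by push_cast; ring
    have hfin := image_norm_le_of_norm_deriv_right_le_deriv_boundary (f := h) (f' := h')
      (a := s) (b := t) hcont
      (fun r hr => (hder r hr.1).mono (Set.Ici_subset_Ici.2 (hs.trans hr.1)))
      (B := fun r => 2 * B * (bnd c q m (n + 1) * (r - s) ^ (n + 1)))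
      (B' := fun r => 2 * B * (bnd c q m (n + 1) * ((n + 1 : ℕ) * (r - s) ^ n)))
      (by
        have : h s = 0 := by rw [hh]; simp only; rw [h0 f hloc, sub_self]
        rw [this]; simp)
      (fun r => by
        have h1 : HasDerivAt (fun r : ℝ => (r - s) ^ (n + 1)) ((n + 1 : ℕ) * (r - s) ^ n * 1) r := by
          have := HasDerivAt.fun_pow ((hasDerivAt_id' r).sub_const s) (n + 1)
          simpa using this
        rw [mul_one] at h1
        exact (h1.const_mul _).const_mul _)
      (fun r hr => hbound r hr.1)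
      (x := t) ⟨ht, le_rfl⟩
    rw [Real.norm_eq_abs] at hfin
    exact hfin

theorem bnd_tendsto {c q : ℝ} (hc : 0 < c) (hq : 0 < q) (m : ℝ) (hm : 0 ≤ m) {δ : ℝ} (hδ : 0 ≤ δ)
    (h : c * q * δ < 1) : Tendsto (fun n => bnd c q m n * δ ^ n) atTop (𝓝 0) := by
  rcases hδ.eq_or_lt with rfl | hδ
  · refine tendsto_const_nhds.congr' ?_
    filter_upwards [eventually_ge_atTop 1] with n hn
    rw [zero_pow (by omega), mul_zero]
  · rcases hm.eq_or_lt with rfl | hm
    · refine tendsto_const_nhds.congr' ?_
      filter_upwards [eventually_ge_atTop 1] with n hn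
      have : bnd c q 0 n = 0 := by
        rw [bnd]
        apply Finset.prod_eq_zero (i := 0) (Finset.mem_range.2 (by omega))
        simp
      rw [this, zero_mul]
    · apply Summable.tendsto_atTop_zero
      apply summable_of_ratio_test_tendsto_lt_one h
      · filter_upwards with n
        have : 0 < bnd c q m n := Finset.prod_pos (fun k _ => by positivity)
        positivity
      · have e : ∀ n : ℕ, ‖bnd c q m (n + 1) * δ ^ (n + 1)‖ / ‖bnd c q m n * δ ^ n‖ =
            c * δ * ((m + n * q) / (n + 1)) := by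
          intro n
          have hp : 0 < bnd c q m n := Finset.prod_pos (fun k _ => by positivity)
          have hs : bnd c q m (n + 1) = bnd c q m n * (c * (m + n * q) / (n + 1)) := by
            rw [bnd, Finset.prod_range_succ, ← bnd]
          rw [hs, Real.norm_of_nonneg (by positivity), Real.norm_of_nonneg (by positivity), pow_succ]
          field_simp
        simp_rw [e]
        have h2 : Tendsto (fun n : ℕ => (m + n * q) / ((n : ℝ) + 1)) atTop (𝓝 q) := by
          have h3 : Tendsto (fun n : ℕ => (m - q) * (1 / ((n : ℝ) + 1)) + q) atTop (𝓝 ((m - q) * 0 + q)) :=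
            (tendsto_one_div_add_atTop_nhds_zero_nat.const_mul _).add_const _
          rw [mul_zero, zero_add] at h3
          refine h3.congr (fun n => ?_)
          have : (0 : ℝ) < (n : ℝ) + 1 := by positivity
          field_simp
          ring
        have h3 := h2.const_mul (c * δ)
        have e2 : c * δ * q = c * q * δ := by ring
        rwa [e2] at h3

/-- The law of the network is unique. -/
theorem unique (ha : Interference a) (hlam : 0 ≤ lam) {μ ν : ℝ → Measure (Conf d)}
    (hμ : NetworkLaw a lam μ) (hν : NetworkLaw a lam ν) (t : ℝ) (ht : 0 ≤ t) :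
    ∀ f, IsLocal f → ∫ x, f x ∂(μ t) = ∫ x, f x ∂(ν t) := by
  set c : ℝ := 2 * (lam + 1) with hc
  have hc0 : 0 < c := by positivity
  set q : ℝ := (ha.S.card : ℝ) with hq
  have hq0 : 0 < q := by
    rw [hq]; exact_mod_cast Finset.card_pos.2 ⟨0, ha.zero_mem⟩
  set δ : ℝ := 1 / (2 * c * q) with hδd
  have hδ : 0 < δ := by positivity
  have hcδ : c * q * δ < 1 := by
    rw [hδd]
    have : c * q * (1 / (2 * c * q)) = 1 / 2 := by field_simp
    rw [this]; norm_num
  have step : ∀ s, 0 ≤ s → (∀ f, IsLocal f → ∫ x, f x ∂(μ s) = ∫ x, f x ∂(ν s)) →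
      ∀ r, s ≤ r → r ≤ s + δ → ∀ f, IsLocal f → ∫ x, f x ∂(μ r) = ∫ x, f x ∂(ν r) := by
    intro s hs h0 r hr1 hr2 f hf
    obtain ⟨⟨A, hA⟩, B, hB⟩ := hf
    have hlim := bnd_tendsto hc0 hq0 (A.card : ℝ) (Nat.cast_nonneg _) (δ := r - s) (by linarith) (by
      have : c * q * (r - s) ≤ c * q * δ := by
        apply mul_le_mul_of_nonneg_left (by linarith); positivity
      linarith)
    have hle : ∀ n : ℕ, |∫ x, f x ∂(μ r) - ∫ x, f x ∂(ν r)| ≤
        2 * B * (bnd c q A.card n * (r - s) ^ n) := fun n =>
      iter_bound ha hlam hμ hν hs h0 n A.card A f B hA hB le_rfl r hr1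
    have h1 := ge_of_tendsto' (hlim.const_mul (2 * B)) hle
    rw [mul_zero] at h1
    have h2 := abs_nonpos_iff.1 h1
    linarith
  have main : ∀ n : ℕ, ∀ r, 0 ≤ r → r ≤ n * δ → ∀ f, IsLocal f →
      ∫ x, f x ∂(μ r) = ∫ x, f x ∂(ν r) := by
    intro n
    induction n with
    | zero =>
      intro r h0 h1 f _
      have : r = 0 := by simp at h1; linarith
      rw [this, hμ.init, hν.init]
    | succ n ih =>
      intro r h0 h1 f hf
      by_cases hrn : r ≤ n * δ
      · exact ih r h0 hrn f hf
      · push Not at hrn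
        push_cast at h1
        exact step (n * δ) (by positivity) (ih _ (by positivity) le_rfl) r hrn.le (by linarith) f hf
  obtain ⟨n, hn⟩ := exists_nat_ge (t / δ)
  exact main n t ht (by rwa [div_le_iff₀ hδ] at hn)

end Pool.Agent.R952.IQ
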